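import Pool.Agent.Helper65.KH.Goals

/-! # KH, packet BA: linear independence by counting -/

set_option autoImplicit false

open MvPolynomial MeasureTheory

namespace Pool.Agent.Helper83.KH.BA

open Pool.Agent.Helper65.KH

variable {ι : Type} [Fintype ι]

theorem mon_eq (p : ι → ℕ) :
    mon p = monomial (Finsupp.equivFunOnFinite.symm p) (1 : ℚ) := by
  rw [mon, MvPolynomial.monomial_eq, Finsupp.prod_fintype _ _ (by simp)]
  simp

theorem mon_add (p q : ι → ℕ) : mon (p + q) = mon p * mon q := by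
  simp [mon, pow_add, Finset.prod_mul_distrib]

theorem fl_eq (V : Finset (ι → ℕ)) (θ : ι → ℝ) (t : ℝ) :
    fl V θ t = Ideal.span ((fun s : ι →₀ ℕ => monomial s (1 : ℚ)) '' {s | t ≤ dg V θ s}) := by
  unfold fl
  congr 1
  ext f
  simp only [Set.mem_ofPred_eq, Set.mem_image]
  constructor
  · rintro ⟨p, hp, rfl⟩
    exact ⟨Finsupp.equivFunOnFinite.symm p, by simpa using hp, (mon_eq p).symm⟩
  · rintro ⟨s, hs, rfl⟩
    refine ⟨s, hs, ?_⟩
    rw [mon_eq]
    simp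

theorem mem_fl {V : Finset (ι → ℕ)} {θ : ι → ℝ}
    (hm : ∀ p q : ι → ℕ, dg V θ p ≤ dg V θ (p + q)) (t : ℝ) (f : MvPolynomial ι ℚ) :
    f ∈ fl V θ t ↔ ∀ s ∈ f.support, t ≤ dg V θ s := by
  rw [fl_eq, MvPolynomial.mem_ideal_span_monomial_image]
  constructor
  · intro h s hs
    obtain ⟨s', hs', hle⟩ := h s hs
    have h1 : (s : ι → ℕ) = (s' : ι → ℕ) + (fun i => s i - s' i) := by
      funext i
      have := hle i
      simp only [Pi.add_apply]
      omega
    rw [h1]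
    exact le_trans hs' (hm _ _)
  · intro h s hs
    exact ⟨s, h s hs, le_refl _⟩

theorem fl_anti (V : Finset (ι → ℕ)) (θ : ι → ℝ) {s t : ℝ} (h : s ≤ t) :
    fl V θ t ≤ fl V θ s := by
  unfold fl
  refine Ideal.span_mono ?_
  rintro f ⟨p, hp, rfl⟩
  exact ⟨p, le_trans h hp, rfl⟩

variable [DecidableEq ι]

theorem ll_nn {V : Finset (ι → ℕ)} (hV : Cn V) {w : ι → ℝ} (hw : w ∈ LL V) (i : ι) :
    0 ≤ w i := by
  obtain ⟨m, hm, hmem⟩ := hV.2 i
  have h1 := hw _ hmem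
  have h2 : dt w (cv (Pi.single i m : ι → ℕ)) = w i * m := by
    unfold dt cv
    rw [Finset.sum_eq_single i]
    · simp
    · intro j _ hj
      rw [Pi.single_eq_of_ne hj]
      simp
    · intro h
      exact absurd (Finset.mem_univ i) h
  rw [h2] at h1
  by_contra h
  push Not at h
  have : w i * (m : ℝ) ≤ 0 := mul_nonpos_of_nonpos_of_nonneg h.le (by positivity)
  linarith

theorem ll_one {V : Finset (ι → ℕ)} (hV : Cn V) : (fun _ => 1 : ι → ℝ) ∈ LL V := by
  intro v hv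
  have h0 : v ≠ 0 := fun h => hV.1 (h ▸ hv)
  obtain ⟨i, hi⟩ : ∃ i, v i ≠ 0 := by
    by_contra h
    push Not at h
    exact h0 (funext h)
  unfold dt cv
  simp only [one_mul]
  have h1 : (v i : ℝ) ≤ ∑ j, (v j : ℝ) :=
    Finset.single_le_sum (f := fun j => (v j : ℝ)) (fun j _ => by positivity) (Finset.mem_univ i)
  have h2 : (1 : ℝ) ≤ v i := by exact_mod_cast Nat.one_le_iff_ne_zero.2 hi
  linarith

theorem dg_add {V : Finset (ι → ℕ)} (hV : Cn V) {θ : ι → ℝ} (hθ : ∀ i, 0 < θ i) (p : ι → ℕ)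
    {v : ι → ℕ} (hv : v ∈ V) : dg V θ p + 1 ≤ dg V θ (p + v) := by
  unfold dg rr
  have hne : ((fun w => dt w (fun i => ((p + v) i : ℝ) + θ i)) '' LL V).Nonempty :=
    ⟨_, _, ll_one hV, rfl⟩
  refine le_csInf hne ?_
  rintro _ ⟨w, hw, rfl⟩
  have hb : BddBelow ((fun w => dt w (fun i => (p i : ℝ) + θ i)) '' LL V) := by
    refine ⟨0, ?_⟩
    rintro _ ⟨w', hw', rfl⟩
    refine Finset.sum_nonneg fun i _ => mul_nonneg (ll_nn hV hw' i) ?_
    have := hθ i
    positivity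
  have h1 := csInf_le hb ⟨w, hw, rfl⟩
  have h2 := hw v hv
  have h3 : dt w (fun i => ((p + v) i : ℝ) + θ i) =
      dt w (fun i => (p i : ℝ) + θ i) + dt w (cv v) := by
    unfold dt cv
    rw [← Finset.sum_add_distrib]
    refine Finset.sum_congr rfl fun i _ => ?_
    simp only [Pi.add_apply]
    push_cast
    ring
  simp only at h1 ⊢
  rw [h3]
  linarith

theorem mulL {V : Finset (ι → ℕ)} (hV : Cn V) {θ : ι → ℝ} (hθ : ∀ i, 0 < θ i) (i : ι) (s : ℝ)
    {f : MvPolynomial ι ℚ} (hf : f ∈ fl V θ s) : Lp V i * f ∈ fl V θ (s + 1) := by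
  unfold fl at hf
  induction hf using Submodule.span_induction with
  | mem x hx =>
    obtain ⟨p, hp, rfl⟩ := hx
    have e : Lp V i * mon p = ∑ v ∈ V, ((v i : ℚ) • mon v) * mon p := by
      unfold Pool.Agent.Helper65.KH.Lp
      rw [Finset.sum_mul]
    rw [e]
    refine Ideal.sum_mem _ fun v hv => ?_
    rw [smul_mul_assoc, ← mon_add, MvPolynomial.smul_eq_C_mul]
    refine Ideal.mul_mem_left _ _ (Ideal.subset_span ⟨v + p, ?_, rfl⟩)
    have := dg_add hV hθ p hv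
    rw [add_comm v p]
    linarith
  | zero => simp
  | add x y _ _ hx hy => rw [mul_add]; exact Ideal.add_mem _ hx hy
  | smul a x _ hx =>
    rw [smul_eq_mul, mul_left_comm]
    exact Ideal.mul_mem_left _ _ hx

theorem mulLpow {V : Finset (ι → ℕ)} (hV : Cn V) {θ : ι → ℝ} (hθ : ∀ i, 0 < θ i) (i : ι)
    (k : ℕ) (s : ℝ) {f : MvPolynomial ι ℚ} (hf : f ∈ fl V θ s) :
    Lp V i ^ k * f ∈ fl V θ (s + k) := by
  induction k with
  | zero => simpa using hf
  | succ k ih =>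
    have h := mulL hV hθ i _ ih
    rw [pow_succ', mul_assoc]
    have e : s + ((k + 1 : ℕ) : ℝ) = s + k + 1 := by push_cast; ring
    rw [e]
    exact h

theorem mulLprod {V : Finset (ι → ℕ)} (hV : Cn V) {θ : ι → ℝ} (hθ : ∀ i, 0 < θ i) (a : ι → ℕ)
    (S : Finset ι) (s : ℝ) {f : MvPolynomial ι ℚ} (hf : f ∈ fl V θ s) :
    (∏ i ∈ S, Lp V i ^ a i) * f ∈ fl V θ (s + ∑ i ∈ S, (a i : ℝ)) := by
  induction S using Finset.induction_on with
  | empty => simpa using hf
  | insert j S hj ih =>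
    have h := mulLpow hV hθ j (a j) _ ih
    rw [Finset.prod_insert hj, Finset.sum_insert hj, mul_assoc]
    have e : s + ((a j : ℝ) + ∑ i ∈ S, (a i : ℝ)) = s + ∑ i ∈ S, (a i : ℝ) + a j := by ring
    rw [e]
    exact h

theorem F_mem {V : Finset (ι → ℕ)} (hV : Cn V) {θ : ι → ℝ} (hθ : ∀ i, 0 < θ i)
    (b a : ι → ℕ) :
    mon b * ∏ i, Lp V i ^ a i ∈ fl V θ (dg V θ b + ∑ i, (a i : ℝ)) := by
  rw [mul_comm]
  exact mulLprod hV hθ a _ _ (Ideal.subset_span ⟨b, le_refl _, rfl⟩)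

/-- BA. -/
theorem t (hBS : S_BS) (hFN : S_FN) : S_BA := by
  intro ι _ _ V θ Box G hV hGP hGd hG1 hG2 hG3 hG4 t T c hT hsum
  have hθ : ∀ i, 0 < θ i := fun i => (hGd.1 i).1
  obtain ⟨hfin, -, -, hmono⟩ := hFN ι V θ hV hθ
  have hPf : Finite {p : ι → ℕ | dg V θ p < t} := hfin t
  let P : Type := {p : ι → ℕ | dg V θ p < t}
  have : Fintype P := Fintype.ofFinite _
  classical
  let F : (ι → ℕ) × (ι → ℕ) → MvPolynomial ι ℚ := fun x => mon x.1 * ∏ i, Lp V i ^ x.2 i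
  let ψ : MvPolynomial ι ℚ →ₗ[ℚ] (P → ℚ) :=
    LinearMap.pi fun p : P => MvPolynomial.lcoeff ℚ (Finsupp.equivFunOnFinite.symm p.1)
  have hψ : ∀ f p, ψ f p = coeff (Finsupp.equivFunOnFinite.symm p.1) f := fun f p => rfl
  have hker : ∀ f ∈ fl V θ t, ψ f = 0 := by
    intro f hf
    funext p
    rw [hψ]
    by_contra h
    have h1 := (mem_fl hmono t f).1 hf _ (MvPolynomial.mem_support_iff.2 h)
    have h2 : dg V θ p.1 < t := p.2
    have h3 : ((Finsupp.equivFunOnFinite.symm p.1 : ι →₀ ℕ) : ι → ℕ) = p.1 := rfl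
    rw [h3] at h1
    linarith
  -- the choice
  have hγ : ∀ p : P, ∃ x : (ι → ℕ) × (ι → ℕ), x.1 ∈ Box ∧ G x.1 x.2 = p.1 := by
    intro p
    obtain ⟨b, hb, a, ha⟩ := hG3 p.1
    exact ⟨(b, a), hb, ha⟩
  choose γ hγ1 hγ2 using hγ
  have hγu : ∀ (x : (ι → ℕ) × (ι → ℕ)) (p : P), x.1 ∈ Box → G x.1 x.2 = p.1 → γ p = x := by
    intro x p hx hxp
    obtain ⟨h1, h2⟩ := hG2 _ (hγ1 p) _ hx _ _ ((hγ2 p).trans hxp.symm)
    exact Prod.ext h1 h2
  have hγd : ∀ p : P, dg V θ (γ p).1 + ∑ i, ((γ p).2 i : ℝ) < t := by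
    intro p
    rw [← hG1 _ (hγ1 p), hγ2]
    exact p.2
  have hFz : ∀ x : (ι → ℕ) × (ι → ℕ), t ≤ dg V θ x.1 + ∑ i, (x.2 i : ℝ) → ψ (F x) = 0 := by
    intro x hx
    exact hker _ (fl_anti V θ hx (F_mem hV hθ x.1 x.2))
  have hspan : ⊤ ≤ Submodule.span ℚ (Set.range fun p : P => ψ (F (γ p))) := by
    intro g _
    let f : MvPolynomial ι ℚ := ∑ p : P, monomial (Finsupp.equivFunOnFinite.symm p.1) (g p)
    have hf : ψ f = g := by
      funext q
      rw [hψ]
      simp only [f, MvPolynomial.coeff_sum, MvPolynomial.coeff_monomial]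
      rw [Finset.sum_eq_single q]
      · simp
      · intro p _ hpq
        rw [if_neg]
        intro h
        exact hpq (Subtype.ext (Finsupp.equivFunOnFinite.symm.injective h))
      · intro h
        exact absurd (Finset.mem_univ q) h
    obtain ⟨T', c', hT', hf'⟩ := hBS ι V θ Box hV hGP hGd hG4 t f
    have h1 := hker _ hf'
    rw [map_sub, sub_eq_zero, hf, map_sum] at h1
    rw [h1]
    refine Submodule.sum_mem _ fun x hx => ?_
    rw [map_smul]
    refine Submodule.smul_mem _ _ ?_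
    by_cases hxt : dg V θ x.1 + ∑ i, (x.2 i : ℝ) < t
    · have h2 : dg V θ (G x.1 x.2) < t := by
        rw [hG1 _ (hT' x hx)]
        exact hxt
      refine Submodule.subset_span ⟨⟨G x.1 x.2, h2⟩, ?_⟩
      simp only
      rw [hγu x ⟨G x.1 x.2, h2⟩ (hT' x hx) rfl]
    · have h2 := hFz x (not_lt.1 hxt)
      simp only [F] at h2
      rw [h2]
      exact Submodule.zero_mem _
  have hli : LinearIndependent ℚ (fun p : P => ψ (F (γ p))) := by
    refine linearIndependent_of_top_le_span_of_card_eq_finrank hspan ?_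
    rw [Module.finrank_fintype_fun_eq_card]
  -- the end
  have h0 : ∑ x ∈ T, c x • ψ (F x) = 0 := by
    have h1 := hker _ hsum
    rw [map_sum] at h1
    rw [← h1]
    refine Finset.sum_congr rfl fun x _ => ?_
    rw [map_smul]
  rw [Fintype.linearIndependent_iff] at hli
  have h2 := hli (fun p => if γ p ∈ T then c (γ p) else 0) (by
    rw [← h0]
    have e1 : ∑ x ∈ T, c x • ψ (F x) =
        ∑ x ∈ T.filter (fun x => dg V θ x.1 + ∑ i, (x.2 i : ℝ) < t), c x • ψ (F x) := by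
      rw [Finset.sum_filter]
      refine Finset.sum_congr rfl fun x _ => ?_
      split_ifs with h
      · rfl
      · rw [hFz x (not_lt.1 h), smul_zero]
    have e2 : ∑ p : P, (if γ p ∈ T then c (γ p) else 0) • ψ (F (γ p)) =
        ∑ p ∈ Finset.univ.filter (fun p : P => γ p ∈ T), c (γ p) • ψ (F (γ p)) := by
      rw [Finset.sum_filter]
      refine Finset.sum_congr rfl fun x _ => ?_
      split_ifs with h
      · rfl
      · rw [zero_smul]
    rw [e1, e2]
    refine Finset.sum_bij (fun p _ => γ p) ?_ ?_ ?_ ?_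
    · intro p hp
      exact Finset.mem_filter.2 ⟨(Finset.mem_filter.1 hp).2, hγd p⟩
    · intro p _ q _ hpq
      have : p.1 = q.1 := by rw [← hγ2 p, ← hγ2 q, hpq]
      exact Subtype.ext this
    · intro x hx
      obtain ⟨hx1, hx2⟩ := Finset.mem_filter.1 hx
      have h3 : dg V θ (G x.1 x.2) < t := by
        rw [hG1 _ (hT x hx1)]
        exact hx2
      have h4 := hγu x ⟨G x.1 x.2, h3⟩ (hT x hx1) rfl
      exact ⟨⟨G x.1 x.2, h3⟩, Finset.mem_filter.2 ⟨Finset.mem_univ _, by rw [h4]; exact hx1⟩, h4⟩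
    · intro p _
      rfl)
  intro x hx hxt
  have h3 : dg V θ (G x.1 x.2) < t := by
    rw [hG1 _ (hT x hx)]
    exact hxt
  have h4 := hγu x ⟨G x.1 x.2, h3⟩ (hT x hx) rfl
  have h5 := h2 ⟨G x.1 x.2, h3⟩
  simp only [h4] at h5
  rw [if_pos hx] at h5
  exact h5

end Pool.Agent.Helper83.KH.BA
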